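import Mathlib
import Pool.Agent.H.MP_4d1f21_nt.A

open Finset

namespace Pool.Agent.H.MP_74870a_nt

variable {A : Type*} [CommRing A]

def Np (x : A) (n p T : ℕ) : A :=
  ∏ j ∈ range T, if (j + 1) % 2 = p ∧ ¬ n ∣ j + 1 then 1 - x ^ (j + 1) else 1

def Pp (x : A) (p T : ℕ) : A :=
  ∏ j ∈ range T, if (j + 1) % 2 = p then 1 - x ^ (j + 1) else 1

theorem Pp_one (x : A) (N : ℕ) : Pp x 1 (2 * N) = ∏ j ∈ range N, (1 - x * (x ^ 2) ^ j) := by
  induction N with
  | zero => simp [Pp]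
  | succ N ih =>
    rw [prod_range_succ, ← ih, Pp, Pp, show 2 * (N + 1) = 2 * N + 1 + 1 by ring, prod_range_succ,
      prod_range_succ, if_pos (by omega), if_neg (by omega)]
    ring

theorem Pp_zero (x : A) (N : ℕ) : Pp x 0 (2 * N) = ∏ j ∈ range N, (1 - x ^ 2 * (x ^ 2) ^ j) := by
  induction N with
  | zero => simp [Pp]
  | succ N ih =>
    rw [prod_range_succ, ← ih, Pp, Pp, show 2 * (N + 1) = 2 * N + 1 + 1 by ring, prod_range_succ,
      prod_range_succ, if_neg (by omega), if_pos (by omega)]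
    ring

theorem par {n T : ℕ} (hn : n % 2 = 1) (h : n ∣ T + 1) :
    (T + 1) / n = T / n + 1 ∧ (T + 1) % 2 = (T / n + 1) % 2 ∧ T + 1 = n * (T / n + 1) := by
  have h1 : (T + 1) / n = T / n + 1 := by rw [Nat.succ_div, if_pos h]
  have h2 : T + 1 = n * (T / n + 1) := by rw [← h1, Nat.mul_div_cancel' h]
  refine ⟨h1, ?_, h2⟩
  conv_lhs => rw [h2]
  rw [Nat.mul_mod, hn]; simp

theorem Pp_split (x : A) {n : ℕ} (hn : n % 2 = 1) (p T : ℕ) :
    Pp x p T = Np x n p T * Pp (x ^ n) p (T / n) := by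
  induction T with
  | zero => simp [Pp, Np]
  | succ T ih =>
    rw [Pp, Np, prod_range_succ, prod_range_succ, ← Pp, ← Np, ih]
    by_cases h : n ∣ T + 1
    · obtain ⟨h1, h2, h3⟩ := par hn h
      rw [h1, Pp, Pp, prod_range_succ, ← h2, ← pow_mul, ← h3]
      simp only [h, not_true, and_false, if_false]
      ring
    · have h1 : (T + 1) / n = T / n := by rw [Nat.succ_div, if_neg h, add_zero]
      rw [h1]
      simp only [h, not_false_iff, and_true]
      ring

theorem cnt {n : ℕ} (hn : n % 2 = 1) (T : ℕ) :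
    ((range T).filter fun j => (j + 1) % 2 = 1 ∧ ¬ n ∣ j + 1).card + (T / n + 1) / 2 = (T + 1) / 2 ∧
    ((range T).filter fun j => (j + 1) % 2 = 0 ∧ ¬ n ∣ j + 1).card + (T / n) / 2 = T / 2 := by
  induction T with
  | zero => simp
  | succ T ih =>
    simp only [card_filter] at ih ⊢
    rw [sum_range_succ, sum_range_succ]
    by_cases h : n ∣ T + 1
    · obtain ⟨h1, h2, -⟩ := par hn h
      rw [h1]
      simp only [h, not_true, and_false, if_false]
      omega
    · have h1 : (T + 1) / n = T / n := by rw [Nat.succ_div, if_neg h, add_zero]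
      rw [h1]
      simp only [h, not_false_iff, and_true]
      split_ifs <;> omega

def E (x y : A) (n p h : ℕ) : A :=
  ∏ b ∈ range h, if (b + 1) % 2 = p ∧ ¬ n ∣ b + 1 then 2 - x ^ (b + 1) - y ^ (b + 1) else 1

theorem blk (x y : A) (hxy : x * y = 1) (n M h σ : ℕ) (hM : M = 2 * h + 1) (hnM : n ∣ M)
    (he : (x ^ M - 1) ^ 2 = 0)
    (hσ : ∀ p, p < 2 → ((range h).filter fun j => (j + 1) % 2 = p ∧ ¬ n ∣ j + 1).card = σ)
    (p a : ℕ) (hp : p < 2) :
    Np x n p ((a + 1) * M + h)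
      = Np x n p (a * M + h) * (x ^ ((a + 1) * M)) ^ σ * E x y n ((p + a + 1) % 2) h := by
  have e0 : (a + 1) * M + h = (a * M + h) + (h + (1 + h)) := by rw [add_mul, hM]; ring
  have hX : (x ^ ((a + 1) * M) - 1) ^ 2 = 0 := by
    have : x ^ ((a + 1) * M) = 1 + (x ^ M - 1) * ((a + 1 : ℕ) : A) := by
      rw [← Pool.Agent.H.MP_4d1f21_nt.one_add_pow he, mul_comm, pow_mul]; congr 1; ring
    rw [this]
    linear_combination ((a + 1 : ℕ) : A) ^ 2 * he
  have hd : n ∣ (a + 1) * M := Dvd.dvd.mul_left hnM _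
  have hpar : ((a + 1) * M) % 2 = (a + 1) % 2 := by
    rw [Nat.mul_mod, show M % 2 = 1 by omega]; simp
  rw [Np, e0, prod_range_add _ (a * M + h), prod_range_add _ h, prod_range_add _ 1, ← Np, mul_assoc]
  congr 1
  have e1 : a * M + h + (h + 0) + 1 = (a + 1) * M := by rw [add_mul, hM]; ring
  rw [prod_range_one, e1, if_neg (fun hh => hh.2 hd), one_mul, ← prod_range_reflect,
    ← prod_mul_distrib, ← hσ ((p + a + 1) % 2) (by omega), E, ← prod_const, prod_filter,
    ← prod_mul_distrib]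
  refine prod_congr rfl fun b hb => ?_
  have hb' := mem_range.1 hb
  have e2 : a * M + h + (h - 1 - b) + 1 + (b + 1) = (a + 1) * M := by
    rw [add_mul, hM]; omega
  have e3 : a * M + h + (h + (1 + b)) + 1 = (a + 1) * M + (b + 1) := by
    rw [add_mul, hM]; omega
  set u := a * M + h + (h - 1 - b) + 1 with hu
  rw [e3]
  have c1 : n ∣ u ↔ n ∣ b + 1 := by
    rw [← e2] at hd
    exact ⟨fun h => (Nat.dvd_add_right h).1 hd, fun h => (Nat.dvd_add_left h).1 hd⟩
  have c2 : n ∣ (a + 1) * M + (b + 1) ↔ n ∣ b + 1 := Nat.dvd_add_right hd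
  by_cases hc : (b + 1) % 2 = (p + a + 1) % 2 ∧ ¬ n ∣ b + 1
  · rw [if_pos hc, if_pos hc, if_pos ⟨by omega, by rw [c1]; exact hc.2⟩,
      if_pos ⟨by omega, by rw [c2]; exact hc.2⟩]
    have h1 : x ^ (b + 1) * y ^ (b + 1) = 1 := by rw [← mul_pow, hxy, one_pow]
    have h2 : x ^ u = x ^ ((a + 1) * M) * y ^ (b + 1) := by
      rw [← e2, pow_add x u, mul_assoc, h1, mul_one]
    rw [h2, pow_add x ((a + 1) * M)]
    linear_combination hX + (x ^ ((a + 1) * M)) ^ 2 * h1
  · rw [if_neg hc, if_neg hc, if_neg (fun hh => hc ⟨by omega, by rw [← c1]; exact hh.2⟩),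
      if_neg (fun hh => hc ⟨by omega, by rw [← c2]; exact hh.2⟩)]

theorem main (x : A) (n M h c : ℕ) (hn : n % 2 = 1) (hM : M = 2 * h + 1) (hnM : n ∣ M)
    (h2 : h % 2 = 0) (h3 : (h / n) % 2 = 0) (he : (x ^ M - 1) ^ 2 = 0) :
    Np x n 1 (2 * c * M + h) * Np x n 0 h = Np x n 0 (2 * c * M + h) * Np x n 1 h := by
  have hy : x * (x ^ (2 * h) * (2 - x ^ M)) = 1 := by
    rw [← mul_assoc, ← pow_succ', ← hM]; linear_combination -he
  have hσ : ∀ p, p < 2 → ((range h).filter fun j => (j + 1) % 2 = p ∧ ¬ n ∣ j + 1).card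
      = h / 2 - h / n / 2 := by
    intro p hp
    have := cnt hn h
    interval_cases p <;> omega
  have hb := blk x _ hy n M h _ hM hnM he hσ
  induction c with
  | zero => simp [mul_comm]
  | succ c ih =>
    rw [show 2 * (c + 1) = 2 * c + 1 + 1 by ring, hb 1 _ (by omega), hb 1 _ (by omega),
      hb 0 _ (by omega), hb 0 _ (by omega),
      show (1 + 2 * c + 1) % 2 = 0 by omega, show (1 + (2 * c + 1) + 1) % 2 = 1 by omega,
      show (0 + 2 * c + 1) % 2 = 1 by omega, show (0 + (2 * c + 1) + 1) % 2 = 0 by omega]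
    linear_combination (x ^ ((2 * c + 1) * M)) ^ (h / 2 - h / n / 2) *
      (x ^ ((2 * c + 1 + 1) * M)) ^ (h / 2 - h / n / 2) * E x (x ^ (2 * h) * (2 - x ^ M)) n 0 h
      * E x (x ^ (2 * h) * (2 - x ^ M)) n 1 h * ih

end Pool.Agent.H.MP_74870a_nt
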